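import Pool.Agent.LibIN19.R

/-!
# MP_225c33_nt, assertion (c): the prime two
-/

set_option autoImplicit false

namespace IN19

open Finset

theorem cbs (k : ℕ) : (k + 1) * (2 * (k + 1) + 1) * (2 * (k + 1)).choose (k + 1) =
    2 * ((2 * k + 1) * (2 * k + 3)) * Nat.centralBinom k := by
  have := Nat.succ_mul_centralBinom_succ k
  rw [Nat.centralBinom_eq_two_mul_choose (k + 1)] at this
  calc (k + 1) * (2 * (k + 1) + 1) * (2 * (k + 1)).choose (k + 1)
      = ((k + 1) * (2 * (k + 1)).choose (k + 1)) * (2 * k + 3) := by ring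
    _ = _ := by rw [this]; ring

theorem v2_odd (k : ℕ) : padicValNat 2 (2 * k + 1) = 0 :=
  padicValNat.eq_zero_of_not_dvd (by omega)

theorem v2_step (k : ℕ) : padicValNat 2 (Nat.centralBinom (k + 1)) ≤
    padicValNat 2 (Nat.centralBinom k) + 1 := by
  have h := Nat.succ_mul_centralBinom_succ k
  have h1 := congrArg (padicValNat 2) h
  rw [padicValNat.mul (by omega) (Nat.centralBinom_ne_zero _),
    padicValNat.mul (by omega) (Nat.centralBinom_ne_zero _),
    padicValNat.mul (by omega) (by omega), v2_odd, padicValNat.self (by omega)] at h1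
  omega

theorem v2_steps (j i : ℕ) : padicValNat 2 (Nat.centralBinom (j + i)) ≤
    padicValNat 2 (Nat.centralBinom j) + i := by
  induction i with
  | zero => simp
  | succ i ih =>
    have := v2_step (j + i)
    rw [show j + (i + 1) = j + i + 1 by ring]
    omega

theorem v2_den (k : ℕ) : padicValNat 2 ((k + 1) * (2 * (k + 1) + 1) *
    (2 * (k + 1)).choose (k + 1)) = 1 + padicValNat 2 (Nat.centralBinom k) := by
  rw [cbs, padicValNat.mul (by positivity) (Nat.centralBinom_ne_zero _),
    padicValNat.mul (by omega) (by positivity), padicValNat.mul (by omega) (by omega),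
    v2_odd, show 2 * k + 3 = 2 * (k + 1) + 1 by ring, v2_odd, padicValNat.self (by omega)]

/-- **the prime two** -/
theorem d2 (k : ℕ) (hk : 1 ≤ k) : (2 : ℤ) ^ (padicValNat 2 ((k + 1) * (2 * (k + 1) + 1) *
    (2 * (k + 1)).choose (k + 1))) ∣ U (k + 1) := by
  rw [v2_den]
  unfold U
  refine Finset.dvd_sum fun j hj => ?_
  rw [mem_range] at hj
  obtain ⟨i, rfl⟩ : ∃ i, k = j + i := ⟨k - j, by omega⟩
  rw [show j + i + 1 - 1 - j = i by omega]
  have h1 : 1 + padicValNat 2 (Nat.centralBinom (j + i)) ≤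
      12 * i + 2 * padicValNat 2 (Nat.centralBinom j) := by
    rcases Nat.eq_zero_or_pos i with rfl | hi
    · have h2 : 1 ≤ padicValNat 2 (Nat.centralBinom j) := by
        have h3 : 2 ∣ Nat.centralBinom j := Nat.two_dvd_centralBinom_of_one_le (by omega)
        exact one_le_padicValNat_of_dvd (Nat.centralBinom_ne_zero _) h3
      simp only [add_zero]
      omega
    · have := v2_steps j i
      omega
  have h2 : (2 : ℤ) ^ (12 * i) ∣ (-110592) ^ i := by
    rw [pow_mul]
    exact pow_dvd_pow_of_dvd (by norm_num) _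
  have h3 : (2 : ℤ) ^ padicValNat 2 (Nat.centralBinom j) ∣ (((2 * j).choose j : ℕ) : ℤ) := by
    have := pow_padicValNat_dvd (p := 2) (n := Nat.centralBinom j)
    rw [Nat.centralBinom_eq_two_mul_choose] at this ⊢
    exact_mod_cast this
  have h4 : (2 : ℤ) ^ (12 * i + 2 * padicValNat 2 (Nat.centralBinom j)) ∣
      (-110592) ^ i * (((2 * j).choose j : ℕ) : ℤ) ^ 2 := by
    rw [pow_add, mul_comm 2 (padicValNat 2 _), pow_mul _ _ 2]
    exact mul_dvd_mul h2 (pow_dvd_pow_of_dvd h3 2)
  refine (pow_dvd_pow _ h1).trans (h4.trans ⟨(615 * (j : ℤ) + 53) *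
    (((3 * j).choose j : ℕ) : ℤ), ?_⟩)
  ring

end IN19
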