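import Pool.Agent.LibIN19.D2

/-!
# MP_225c33_nt, assertion (c): the prime three
-/

set_option autoImplicit false

namespace IN19

open Finset

/-- the digit sum in base three -/
def sd (n : ℕ) : ℕ := (Nat.digits 3 n).sum

theorem sd_le (n : ℕ) : sd n ≤ n := Nat.digit_sum_le 3 n

theorem sd_add (q r : ℕ) (hr : r < 3) : sd (3 * q + r) = sd q + r := by
  unfold sd
  rcases Nat.eq_zero_or_pos (3 * q + r) with h | h
  · obtain ⟨rfl, rfl⟩ : q = 0 ∧ r = 0 := by omega
    simp
  · rw [Nat.digits_def' (by norm_num) h, List.sum_cons, show (3 * q + r) % 3 = r by omega,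
      show (3 * q + r) / 3 = q by omega]
    omega

theorem leg (n : ℕ) : 2 * padicValNat 3 n.factorial + sd n = n := by
  have h := sub_one_mul_padicValNat_factorial (p := 3) n
  have h2 := sd_le n
  unfold sd at *
  rw [show 3 - 1 = 2 by norm_num] at h
  omega

theorem sd_succ (n : ℕ) : sd (n + 1) ≤ sd n + 1 := by
  have h1 := leg n
  have h2 := leg (n + 1)
  have h3 : padicValNat 3 (n + 1).factorial = padicValNat 3 (n + 1) + padicValNat 3 n.factorial := by
    rw [Nat.factorial_succ, padicValNat.mul (by omega) (Nat.factorial_ne_zero _)]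
  omega

theorem sd_steps (j i : ℕ) : sd (j + i) ≤ sd j + i := by
  induction i with
  | zero => simp
  | succ i ih =>
    have := sd_succ (j + i)
    rw [show j + (i + 1) = j + i + 1 by ring]
    omega

/-- the valuation of the central binomial coefficient -/
def g3 (k : ℕ) : ℕ := padicValNat 3 ((2 * k).choose k)

theorem g3_eq (k : ℕ) : 2 * g3 k + sd (2 * k) = 2 * sd k := by
  have h := Nat.choose_mul_factorial_mul_factorial (show k ≤ 2 * k by omega)
  rw [show 2 * k - k = k by omega] at h
  have h1 := congrArg (padicValNat 3) h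
  rw [padicValNat.mul (mul_ne_zero (Nat.choose_pos (by omega)).ne' (Nat.factorial_ne_zero _))
    (Nat.factorial_ne_zero _), padicValNat.mul (Nat.choose_pos (by omega)).ne'
    (Nat.factorial_ne_zero _)] at h1
  have h2 := leg k
  have h3 := leg (2 * k)
  unfold g3
  omega

theorem v3_c (k : ℕ) : padicValNat 3 ((3 * k).choose k) + g3 k = sd k := by
  have h := Nat.choose_mul_factorial_mul_factorial (show k ≤ 3 * k by omega)
  rw [show 3 * k - k = 2 * k by omega] at h
  have h1 := congrArg (padicValNat 3) h
  rw [padicValNat.mul (mul_ne_zero (Nat.choose_pos (by omega)).ne' (Nat.factorial_ne_zero _))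
    (Nat.factorial_ne_zero _), padicValNat.mul (Nat.choose_pos (by omega)).ne'
    (Nat.factorial_ne_zero _)] at h1
  have h2 := leg k
  have h3 := leg (2 * k)
  have h4 := leg (3 * k)
  have h5 := sd_add k 0 (by norm_num)
  have h6 := g3_eq k
  rw [add_zero, add_zero] at h5
  omega

theorem sd_two (l : ℕ) : ∀ M, 3 ^ l ∣ M + 1 → 2 * l ≤ sd M := by
  induction l with
  | zero => intro M _; omega
  | succ l ih =>
    intro M hM
    obtain ⟨u, hu⟩ := hM
    have h0 : 0 < 3 ^ l * u := by
      rcases Nat.eq_zero_or_pos (3 ^ l * u) with h | h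
      · exfalso
        rw [pow_succ, mul_right_comm, h] at hu
        omega
      · exact h
    have h1 : M = 3 * (3 ^ l * u - 1) + 2 := by
      rw [pow_succ, mul_right_comm] at hu
      omega
    have h2 := ih (3 ^ l * u - 1) ⟨u, by omega⟩
    rw [h1, sd_add _ _ (by norm_num)]
    omega

theorem sd_one (l : ℕ) : ∀ k, 3 ^ l ∣ 2 * k + 1 → l ≤ sd k ∧ (sd k = l → 2 * k + 1 = 3 ^ l) := by
  induction l with
  | zero =>
    intro k _
    refine ⟨by omega, fun h => ?_⟩
    have h1 := leg k
    have h2 : k = 0 := by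
      by_contra hk
      have hpos : 0 < sd k := by
        have : ∀ n, 0 < n → 0 < sd n := by
          intro n
          induction n using Nat.strong_induction_on with
          | _ n ihn =>
            intro hn
            have e : n = 3 * (n / 3) + n % 3 := by omega
            rw [e, sd_add _ _ (by omega)]
            rcases Nat.eq_zero_or_pos (n % 3) with h3 | h3
            · have := ihn (n / 3) (by omega) (by omega)
              omega
            · omega
        exact this k (by omega)
      omega
    subst h2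
    norm_num
  | succ l ih =>
    intro k hk
    obtain ⟨u, hu⟩ := hk
    have h1 : k % 3 = 1 := by
      rw [pow_succ, mul_right_comm] at hu
      omega
    obtain ⟨q, rfl⟩ : ∃ q, k = 3 * q + 1 := ⟨k / 3, by omega⟩
    have h2 : 2 * q + 1 = 3 ^ l * u := by
      rw [pow_succ, mul_right_comm] at hu
      omega
    obtain ⟨h3, h4⟩ := ih q ⟨u, h2⟩
    rw [sd_add _ _ (by norm_num)]
    refine ⟨by omega, fun h5 => ?_⟩
    have h6 := h4 (by omega)
    rw [pow_succ]
    omega

theorem sd_pow (l : ℕ) : ∀ k, 2 * k + 1 = 3 ^ l → sd k = l := by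
  induction l with
  | zero =>
    intro k hk
    have : k = 0 := by omega
    subst this
    simp [sd]
  | succ l ih =>
    intro k hk
    rw [pow_succ] at hk
    obtain ⟨q, rfl⟩ : ∃ q, k = 3 * q + 1 := ⟨k / 3, by omega⟩
    rw [sd_add _ _ (by norm_num), ih q (by omega)]

/-- the valuation of the denominator -/
theorem v3_den (k : ℕ) : padicValNat 3 ((k + 1) * (2 * (k + 1) + 1) *
    (2 * (k + 1)).choose (k + 1)) =
    padicValNat 3 (2 * k + 1) + padicValNat 3 (2 * k + 3) + g3 k := by
  rw [cbs, padicValNat.mul (by positivity) (Nat.centralBinom_ne_zero _),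
    padicValNat.mul (by omega) (by positivity), padicValNat.mul (by omega) (by omega),
    Nat.centralBinom_eq_two_mul_choose, padicValNat.eq_zero_of_not_dvd (show ¬ 3 ∣ 2 by norm_num)]
  unfold g3
  omega

theorem v3_both (k : ℕ) : padicValNat 3 (2 * k + 1) = 0 ∨ padicValNat 3 (2 * k + 3) = 0 := by
  by_cases h : 3 ∣ 2 * k + 1
  · right
    exact padicValNat.eq_zero_of_not_dvd (by omega)
  · left
    exact padicValNat.eq_zero_of_not_dvd h

theorem v3_up (k : ℕ) : padicValNat 3 (2 * k + 1) + padicValNat 3 (2 * k + 3) + g3 k ≤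
    sd k + 1 := by
  have hg := g3_eq k
  rcases v3_both k with h | h
  · rw [h, zero_add]
    rcases Nat.eq_zero_or_pos (padicValNat 3 (2 * k + 3)) with h0 | h0
    · omega
    · obtain ⟨l, hl⟩ : ∃ l, padicValNat 3 (2 * k + 3) = l + 1 :=
        ⟨padicValNat 3 (2 * k + 3) - 1, by omega⟩
      have hd := pow_padicValNat_dvd (p := 3) (n := 2 * k + 3)
      rw [hl] at hd ⊢
      obtain ⟨u, hu⟩ := hd
      have h0 : 0 < 3 ^ l * u := by
        rcases Nat.eq_zero_or_pos (3 ^ l * u) with h | h
        · exfalso
          rw [pow_succ, mul_right_comm, h] at hu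
          omega
        · exact h
      have h1 : 2 * k = 3 * (3 ^ l * u - 1) + 0 := by
        rw [pow_succ, mul_right_comm] at hu
        omega
      have h2 := sd_two l (3 ^ l * u - 1) ⟨u, by omega⟩
      have h3 := sd_add (3 ^ l * u - 1) 0 (by norm_num)
      rw [← h1] at h3
      omega
  · rw [h, add_zero]
    have hd := pow_padicValNat_dvd (p := 3) (n := 2 * k + 1)
    have h2 := sd_two _ (2 * k) hd
    omega

/-- the last term, generic case -/
theorem v3_gen (k : ℕ) (hk : ∀ l, 2 * k + 3 ≠ 3 ^ l) :
    padicValNat 3 (2 * k + 1) + padicValNat 3 (2 * k + 3) ≤ sd k := by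
  rcases v3_both k with h | h
  · rw [h, zero_add]
    rcases Nat.eq_zero_or_pos (padicValNat 3 (2 * k + 3)) with h0 | h0
    · omega
    · obtain ⟨l, hl⟩ : ∃ l, padicValNat 3 (2 * k + 3) = l + 1 :=
        ⟨padicValNat 3 (2 * k + 3) - 1, by omega⟩
      have hd := pow_padicValNat_dvd (p := 3) (n := 2 * k + 3)
      rw [hl] at hd ⊢
      obtain ⟨u, hu⟩ := hd
      rw [pow_succ, mul_right_comm] at hu
      obtain ⟨q, rfl⟩ : ∃ q, k = 3 * q := ⟨k / 3, by omega⟩
      have h2 : 2 * q + 1 = 3 ^ l * u := by omega
      obtain ⟨h3, h4⟩ := sd_one l q ⟨u, h2⟩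
      have h5 := sd_add q 0 (by norm_num)
      rw [add_zero, add_zero] at h5
      rw [h5]
      by_contra h6
      have h7 := h4 (by omega)
      refine hk (l + 1) ?_
      rw [pow_succ]
      omega
  · rw [h, add_zero]
    exact (sd_one _ k (pow_padicValNat_dvd (p := 3) (n := 2 * k + 1))).1

/-- the last term, exceptional case -/
theorem v3_exc (k l : ℕ) (hk : 2 * k + 3 = 3 ^ l) :
    padicValNat 3 (2 * k + 1) + padicValNat 3 (2 * k + 3) = sd k + 1 := by
  rcases l with _ | l
  · exfalso
    rw [pow_zero] at hk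
    omega
  · have h1 : padicValNat 3 (2 * k + 3) = l + 1 := by
      rw [hk, padicValNat.prime_pow]
    have h2 : padicValNat 3 (2 * k + 1) = 0 := by
      rcases v3_both k with h | h
      · exact h
      · omega
    rw [pow_succ] at hk
    obtain ⟨q, rfl⟩ : ∃ q, k = 3 * q := ⟨k / 3, by omega⟩
    have h3 := sd_pow l q (by omega)
    have h5 := sd_add q 0 (by norm_num)
    rw [add_zero, add_zero] at h5
    omega

end IN19
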