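import Mathlib

/-!
# MP_225c33_nt, assertion (c): definitions

The series `w` are the residues of the differentials `dX / (X ^ (j + 1) W)`,
`W ^ 2 = 4 X ^ 3 + (X + y) ^ 2`.
-/

set_option autoImplicit false

namespace IN19

open PowerSeries

/-- coefficients of the residues; `n = j + 3` -/
def vc (n i : ℕ) : ℤ :=
  if 2 ≤ i + n then (-1) ^ n * (((2 * (i + n - 2)).choose (i + n - 2) : ℕ) : ℤ) *
    (((2 * (i + n - 2) + i).choose i : ℕ) : ℤ) else 0

/-- the residue series -/
def v (n : ℕ) : ℤ⟦X⟧ := PowerSeries.mk (vc n)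

/-- `y d/dy` -/
noncomputable def th (f : ℤ⟦X⟧) : ℤ⟦X⟧ := X * derivative ℤ f

theorem coeff_th (f : ℤ⟦X⟧) (n : ℕ) : coeff n (th f) = n * coeff n f := by
  unfold th
  cases n with
  | zero => simp
  | succ n =>
    rw [PowerSeries.coeff_succ_X_mul, PowerSeries.coeff_derivative]
    push_cast
    ring

theorem th_add (f g : ℤ⟦X⟧) : th (f + g) = th f + th g := by
  unfold th
  rw [map_add, mul_add]

theorem th_mul (f g : ℤ⟦X⟧) : th (f * g) = th f * g + f * th g := by
  unfold th
  rw [Derivation.leibniz]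
  simp only [smul_eq_mul]
  ring

theorem th_X : th X = X := by
  unfold th
  rw [PowerSeries.derivative_X, mul_one]

end IN19
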