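import Pool.Agent.LibIN19.Sec

/-!
# MP_225c33_nt, assertion (c): the series `κ` and its recurrence
-/

set_option autoImplicit false

namespace IN19

open PowerSeries Finset

theorem two_ne : (2 : ℤ⟦X⟧) ≠ 0 := by
  intro h
  have := congrArg (coeff 0) h
  rw [show (2 : ℤ⟦X⟧) = C (2 : ℤ) by simp, PowerSeries.coeff_zero_C, map_zero] at this
  norm_num at this

/-- the differential equation of `κ` up to an error of high order -/
theorem kap (J : ℕ) (hJ : 1 ≤ J) : ∃ κ c err : ℤ⟦X⟧, IsUnit c ∧ X ^ (J - 1) ∣ err ∧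
    6 * X ^ 2 * c * (2 * pl X * th κ + κ + pl X * (615 * th (v 2) + 53 * v 2)) =
      -(pl X ^ 2 * err) := by
  obtain ⟨ξ, c, h, hξ, hc, h1, h2, h3⟩ := sec
  obtain ⟨err, he, hs⟩ := star ξ hξ J hJ
  refine ⟨X * c * G ξ J + h * v 2, c, err, hc, he, ?_⟩
  have hd : dpl (X : ℤ⟦X⟧) * (4 * ξ ^ 3 + (ξ + X) ^ 2) +
      pl X * (12 * ξ ^ 2 * th ξ + 2 * (ξ + X) * (th ξ + X)) =
      -12 * X ^ 3 * c ^ 2 - 8 * X ^ 3 * c * th c := by
    have := congrArg th h1
    simp only [th_mul, th_add, th_pow, th_X, th_ofNat, th_pl, th_neg] at this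
    push_cast at this
    linear_combination this
  have hdl : dpl (X : ℤ⟦X⟧) = pl X - 1 := by
    unfold dpl pl
    ring
  have ek : th (X * c * G ξ J + h * v 2) = X * c * G ξ J + X * th c * G ξ J +
      X * c * th (G ξ J) + th h * v 2 + h * th (v 2) := by
    simp only [th_mul, th_add, th_X]
    ring
  rw [ek]
  rw [hdl] at hd
  refine mul_left_cancel₀ two_ne ?_
  set L := pl (X : ℤ⟦X⟧) with hL
  set g := G ξ J with hg
  set tg := th g with htg
  set V := v 2 with hV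
  set W := th V with hW
  -- collect
  linear_combination (-2 * L ^ 2) * hs + (6 * L * tg) * h1 + (3 * L * g) * hd -
    (3 * (L - 1) * g) * h1 - (6 * V) * h3 - (2 * L * W) * h2

/-- **the recurrence of `κ`**: the coefficients below `J` satisfy the recurrence -/
theorem rec (J : ℕ) : ∃ κ : ℕ → ℤ, κ 0 = -53 * vc 2 0 ∧ ∀ n, n < J →
    4 * ((615 * ((n : ℤ) + 1) + 53) * vc 2 (n + 1) + (2 * (n : ℤ) + 3) * κ (n + 1)) =
      -110592 * ((615 * (n : ℤ) + 53) * vc 2 n + 2 * n * κ n) := by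
  obtain ⟨κ, c, err, hc, he, h⟩ := kap (J + 5) (by omega)
  have hdv : (X : ℤ⟦X⟧) ^ (J + 4) ∣ 6 * X ^ 2 * c *
      (2 * pl X * th κ + κ + pl X * (615 * th (v 2) + 53 * v 2)) := by
    rw [h]
    exact (dvd_neg.mpr (Dvd.dvd.mul_left he _))
  set T := 2 * pl X * th κ + κ + pl X * (615 * th (v 2) + 53 * v 2) with hT
  obtain ⟨u, rfl⟩ := hc
  have hdv2 : (X : ℤ⟦X⟧) ^ (J + 4) ∣ X ^ 2 * (6 * T) := by
    have : X ^ 2 * (6 * T) = (6 * X ^ 2 * (u : ℤ⟦X⟧) * T) * ((u⁻¹ : (ℤ⟦X⟧)ˣ) : ℤ⟦X⟧) := by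
      have hu : (u : ℤ⟦X⟧) * ((u⁻¹ : (ℤ⟦X⟧)ˣ) : ℤ⟦X⟧) = 1 := u.mul_inv
      linear_combination (-6 * X ^ 2 * T) * hu
    rw [this]
    exact Dvd.dvd.mul_right hdv _
  have hcoef : ∀ i, i < J + 2 → coeff i T = 0 := by
    intro i hi
    rw [PowerSeries.X_pow_dvd_iff] at hdv2
    have h1 := hdv2 (i + 2) (by omega)
    rw [show i + 2 = i + 2 from rfl, PowerSeries.coeff_X_pow_mul] at h1
    have h2 : coeff i (6 * T) = 6 * coeff i T := by
      rw [show (6 : ℤ⟦X⟧) = C (6 : ℤ) by simp, PowerSeries.coeff_C_mul]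
    rw [h2] at h1
    omega
  have hpl : pl (X : ℤ⟦X⟧) = 1 + C (27648 : ℤ) * X := by
    unfold pl
    simp
  have hTc0 : coeff 0 T = coeff 0 κ + 53 * vc 2 0 := by
    rw [hT, hpl]
    have : 2 * (1 + C (27648 : ℤ) * X) * th κ + κ +
        (1 + C (27648 : ℤ) * X) * (615 * th (v 2) + 53 * v 2) =
      C (2 : ℤ) * th κ + κ + (C (615 : ℤ) * th (v 2) + C (53 : ℤ) * v 2) +
      X * (C (27648 : ℤ) * (C (2 : ℤ) * th κ + C (615 : ℤ) * th (v 2) + C (53 : ℤ) * v 2)) := by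
      simp
      ring
    rw [this]
    simp only [map_add, PowerSeries.coeff_C_mul, coeff_th, PowerSeries.coeff_zero_X_mul]
    unfold v
    simp
  have hTc : ∀ n, coeff (n + 1) T = (2 * (n : ℤ) + 3) * coeff (n + 1) κ +
      (615 * ((n : ℤ) + 1) + 53) * vc 2 (n + 1) +
      27648 * (2 * n * coeff n κ + (615 * n + 53) * vc 2 n) := by
    intro n
    rw [hT, hpl]
    have : 2 * (1 + C (27648 : ℤ) * X) * th κ + κ +
        (1 + C (27648 : ℤ) * X) * (615 * th (v 2) + 53 * v 2) =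
      C (2 : ℤ) * th κ + κ + (C (615 : ℤ) * th (v 2) + C (53 : ℤ) * v 2) +
      X * (C (27648 : ℤ) * (C (2 : ℤ) * th κ + C (615 : ℤ) * th (v 2) + C (53 : ℤ) * v 2)) := by
      simp
      ring
    rw [this]
    simp only [map_add, PowerSeries.coeff_C_mul, coeff_th, PowerSeries.coeff_succ_X_mul]
    unfold v
    rw [PowerSeries.coeff_mk, PowerSeries.coeff_mk]
    push_cast
    ring
  refine ⟨fun n => coeff n κ, ?_, ?_⟩
  · have := hcoef 0 (by omega)
    rw [hTc0] at this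
    simp only
    linarith
  · intro n hn
    have := hcoef (n + 1) (by omega)
    rw [hTc n] at this
    simp only
    linear_combination 4 * this

end IN19
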