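import Pool.Agent.LibIN19.K

/-!
# MP_225c33_nt, assertion (c): the formula for the truncated sums
-/

set_option autoImplicit false

namespace IN19

open Finset

/-- the truncated sums -/
def U (n : ℕ) : ℤ := ∑ j ∈ range n, (-110592 : ℤ) ^ (n - 1 - j) * (615 * (j : ℤ) + 53) *
  ((((2 * j).choose j : ℕ) : ℤ) ^ 2 * (((3 * j).choose j : ℕ) : ℤ))

theorem U_succ (n : ℕ) : U (n + 1) = -110592 * U n + (615 * (n : ℤ) + 53) *
    ((((2 * n).choose n : ℕ) : ℤ) ^ 2 * (((3 * n).choose n : ℕ) : ℤ)) := by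
  unfold U
  rw [sum_range_succ, mul_sum]
  congr 1
  · refine sum_congr rfl fun j hj => ?_
    rw [mem_range] at hj
    rw [show n + 1 - 1 - j = (n - 1 - j) + 1 by omega, pow_succ]
    ring
  · rw [show n + 1 - 1 - n = 0 by omega, pow_zero, one_mul]

theorem cb_succ (n : ℕ) : ((n : ℤ) + 1) * (((2 * (n + 1)).choose (n + 1) : ℕ) : ℤ) =
    2 * (2 * (n : ℤ) + 1) * (((2 * n).choose n : ℕ) : ℤ) := by
  have := Nat.succ_mul_centralBinom_succ n
  rw [Nat.centralBinom_eq_two_mul_choose, Nat.centralBinom_eq_two_mul_choose] at this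
  exact_mod_cast this

/-- **the formula** -/
theorem formula (n : ℕ) : ∃ κ : ℤ, -110592 * U n = 2 * (n : ℤ) * (((2 * n).choose n : ℕ) : ℤ) *
    ((615 * (n : ℤ) + 53) * vc 2 n + (2 * (n : ℤ) + 1) * κ) := by
  obtain ⟨κ, -, h⟩ := rec (n + 1)
  refine ⟨κ n, ?_⟩
  have key : ∀ k, k ≤ n → -110592 * U k = 2 * (k : ℤ) * (((2 * k).choose k : ℕ) : ℤ) *
    ((615 * (k : ℤ) + 53) * vc 2 k + (2 * (k : ℤ) + 1) * κ k) := by
    intro k
    induction k with
    | zero =>
      intro _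
      simp [U]
    | succ k ih =>
      intro hk
      have h1 := ih (by omega)
      have h2 := h k (by omega)
      have h3 := cb_succ k
      have h4 := vc2 k
      rw [U_succ]
      push_cast
      rw [h4] at h1 h2
      linear_combination (-110592 : ℤ) * h1 -
        ((((2 * k).choose k : ℕ) : ℤ) * (2 * (k : ℤ) + 1)) * h2 -
        (2 * ((615 * ((k : ℤ) + 1) + 53) * vc 2 (k + 1) + (2 * ((k : ℤ) + 1) + 1) * κ (k + 1))) * h3
  exact key n le_rfl

/-- the numbers `C(3n,n)/(2n+1)` are integers -/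
theorem tern (n : ℕ) : ∃ T : ℤ, (((3 * n).choose n : ℕ) : ℤ) = (2 * (n : ℤ) + 1) * T := by
  rcases n with _ | n
  · exact ⟨1, by simp⟩
  · refine ⟨(((3 * (n + 1)).choose (n + 1) : ℕ) : ℤ) - 2 * (((3 * (n + 1)).choose n : ℕ) : ℤ), ?_⟩
    have h := Nat.choose_succ_right_eq (3 * (n + 1)) n
    rw [show 3 * (n + 1) - n = 2 * n + 3 by omega] at h
    have h' : (((3 * (n + 1)).choose (n + 1) : ℕ) : ℤ) * ((n : ℤ) + 1) =
      (((3 * (n + 1)).choose n : ℕ) : ℤ) * (2 * (n : ℤ) + 3) := by exact_mod_cast h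
    push_cast
    linear_combination (-2) * h'

/-- **divisibility up to the primes two and three** -/
theorem dvdM (n : ℕ) : (n : ℤ) * (2 * (n : ℤ) + 1) * (((2 * n).choose n : ℕ) : ℤ) ∣
    110592 * U n := by
  obtain ⟨κ, h⟩ := formula n
  obtain ⟨T, hT⟩ := tern n
  have h4 := vc2 n
  refine ⟨-(2 * ((615 * (n : ℤ) + 53) * (((2 * n).choose n : ℕ) : ℤ) * T + κ)), ?_⟩
  rw [h4, hT] at h
  linear_combination (-1 : ℤ) * h

end IN19
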