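import Pool.Agent.LibIN19.W2

/-!
# The differential equation of the integral of the third kind
-/

set_option autoImplicit false

namespace IN19

open PowerSeries Finset

/-- truncated integral of the third kind -/
noncomputable def G (ξ : ℤ⟦X⟧) (J : ℕ) : ℤ⟦X⟧ := ∑ j ∈ range J, ξ ^ j * v (j + 3)

theorem th_zero : th 0 = 0 := by
  unfold th
  rw [map_zero, mul_zero]

theorem th_one : th 1 = 0 := by
  unfold th
  rw [Derivation.map_one_eq_zero, mul_zero]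

theorem th_pow (ξ : ℤ⟦X⟧) (j : ℕ) : th (ξ ^ j) = (j : ℤ⟦X⟧) * ξ ^ (j - 1) * th ξ := by
  induction j with
  | zero => simp [th_one]
  | succ j ih =>
    rw [pow_succ, th_mul, ih]
    rcases j with _ | j
    · simp
    · rw [show j + 1 - 1 = j by omega, show j + 1 + 1 - 1 = j + 1 by omega]
      push_cast
      ring

theorem pw (ξ : ℤ⟦X⟧) (j : ℕ) : (j : ℤ⟦X⟧) * ξ ^ (j - 1) * ξ = (j : ℤ⟦X⟧) * ξ ^ j := by
  rcases j with _ | j
  · simp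
  · rw [show j + 1 - 1 = j by omega]
    ring

theorem th_G (ξ : ℤ⟦X⟧) (J : ℕ) : th (G ξ J) =
    ∑ j ∈ range J, ((j : ℤ⟦X⟧) * ξ ^ (j - 1) * th ξ * v (j + 3) + ξ ^ j * th (v (j + 3))) := by
  unfold G
  induction J with
  | zero => simp [th_zero]
  | succ J ih => rw [sum_range_succ, sum_range_succ, th_add, ih, th_mul, th_pow]

theorem sumA (ξ : ℤ⟦X⟧) (J : ℕ) :
    ∑ j ∈ range J, v (j + 3) * ((4 * ξ ^ 3 + (ξ + X) ^ 2) * ((j : ℤ⟦X⟧) * ξ ^ (j - 1)) +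
      (6 * ξ ^ 2 + ξ + X) * ξ ^ j) =
    2 * v 1 - 2 * ξ * v 2 - (J : ℤ⟦X⟧) * X ^ 2 * v (J + 3) * ξ ^ (J - 1) +
      ξ ^ J * ((4 * (J : ℤ⟦X⟧) - 2) * v (J + 1) + (J : ℤ⟦X⟧) * v (J + 2)) +
      ξ ^ (J + 1) * ((4 * (J : ℤ⟦X⟧) + 2) * v (J + 2)) := by
  induction J with
  | zero =>
    simp only [range_zero, sum_empty, Nat.cast_zero, zero_add, pow_zero, pow_one, zero_mul]
    ring
  | succ J ih =>
    rw [sum_range_succ, ih]
    have h := I1 J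
    have hj := pw ξ J
    rw [show J + 1 - 1 = J by omega, show J + 1 + 3 = J + 4 by ring, show J + 1 + 1 = J + 2 by ring,
      show J + 1 + 2 = J + 3 by ring]
    push_cast
    linear_combination (v (J + 3) * (4 * ξ ^ 2 + ξ + 2 * X)) * hj + (ξ ^ J) * h

theorem sumB (ξ : ℤ⟦X⟧) (J : ℕ) :
    ∑ j ∈ range J, ((4 * ξ ^ 3 + (ξ + X) ^ 2) * (ξ ^ j * th (v (j + 3))) +
      (ξ + X) * X * (ξ ^ j * v (j + 3))) =
    -(4 * th (v 0) + th (v 1) + 2 * (X * th (v 2)) + X * v 2) -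
      ξ * (4 * th (v 1) + th (v 2)) - ξ ^ 2 * (4 * th (v 2)) +
      ξ ^ J * (4 * th (v J) + th (v (J + 1)) + 2 * (X * th (v (J + 2))) + X * v (J + 2)) +
      ξ ^ (J + 1) * (4 * th (v (J + 1)) + th (v (J + 2))) +
      ξ ^ (J + 2) * (4 * th (v (J + 2))) := by
  induction J with
  | zero =>
    simp only [range_zero, sum_empty, zero_add, pow_zero, pow_one]
    ring
  | succ J ih =>
    rw [sum_range_succ, ih]
    have h := I2 J
    rw [show J + 1 + 1 = J + 2 by ring, show J + 1 + 2 = J + 3 by ring]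
    linear_combination (ξ ^ J) * h

/-- **the differential equation** of the truncated integral of the third kind -/
theorem star (ξ : ℤ⟦X⟧) (hξ : (X : ℤ⟦X⟧) ∣ ξ) (J : ℕ) (hJ : 1 ≤ J) :
    ∃ err : ℤ⟦X⟧, X ^ (J - 1) ∣ err ∧
    3 * ((4 * ξ ^ 3 + (ξ + X) ^ 2) * th (G ξ J) +
      (6 * ξ ^ 2 * th ξ + (ξ + X) * (th ξ + X)) * G ξ J) =
    (3 * (4 * X * ξ) - 6 * (3 * X + ξ) * th ξ) * v 2 +
      (-12 * ξ ^ 2 - 3 * ξ - X + 36 * X * ξ + 2 * (1 - 27 * X) * th ξ) * th (v 2) + err := by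
  have hp : ∀ k, J - 1 ≤ k → (X : ℤ⟦X⟧) ^ (J - 1) ∣ ξ ^ k := fun k hk =>
    (pow_dvd_pow_of_dvd hξ _).trans (pow_dvd_pow _ hk)
  refine ⟨3 * (th ξ * (-(J : ℤ⟦X⟧) * X ^ 2 * v (J + 3) * ξ ^ (J - 1) +
      ξ ^ J * ((4 * (J : ℤ⟦X⟧) - 2) * v (J + 1) + (J : ℤ⟦X⟧) * v (J + 2)) +
      ξ ^ (J + 1) * ((4 * (J : ℤ⟦X⟧) + 2) * v (J + 2))) +
      (ξ ^ J * (4 * th (v J) + th (v (J + 1)) + 2 * (X * th (v (J + 2))) + X * v (J + 2)) +
      ξ ^ (J + 1) * (4 * th (v (J + 1)) + th (v (J + 2))) +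
      ξ ^ (J + 2) * (4 * th (v (J + 2))))), ?_, ?_⟩
  · refine Dvd.dvd.mul_left (dvd_add (Dvd.dvd.mul_left (dvd_add (dvd_add ?_ ?_) ?_) _)
      (dvd_add (dvd_add ?_ ?_) ?_)) _
    · exact Dvd.dvd.mul_left (hp _ le_rfl) _
    · exact Dvd.dvd.mul_right (hp _ (by omega)) _
    · exact Dvd.dvd.mul_right (hp _ (by omega)) _
    · exact Dvd.dvd.mul_right (hp _ (by omega)) _
    · exact Dvd.dvd.mul_right (hp _ (by omega)) _
    · exact Dvd.dvd.mul_right (hp _ (by omega)) _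
  · have hA := sumA ξ J
    have hB := sumB ξ J
    have hsum : (4 * ξ ^ 3 + (ξ + X) ^ 2) * th (G ξ J) +
      (6 * ξ ^ 2 * th ξ + (ξ + X) * (th ξ + X)) * G ξ J =
      th ξ * ∑ j ∈ range J, v (j + 3) * ((4 * ξ ^ 3 + (ξ + X) ^ 2) *
        ((j : ℤ⟦X⟧) * ξ ^ (j - 1)) + (6 * ξ ^ 2 + ξ + X) * ξ ^ j) +
      ∑ j ∈ range J, ((4 * ξ ^ 3 + (ξ + X) ^ 2) * (ξ ^ j * th (v (j + 3))) +
      (ξ + X) * X * (ξ ^ j * v (j + 3))) := by
      rw [th_G]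
      unfold G
      rw [mul_sum, mul_sum, mul_sum, ← sum_add_distrib, ← sum_add_distrib]
      refine sum_congr rfl fun j _ => ?_
      ring
    rw [hsum, hA, hB]
    have h3 := I3
    have h4 := I4
    have h5 := I5
    linear_combination (-4 : ℤ⟦X⟧) * h4 + (-3 - 12 * ξ) * h3 + (2 * th ξ) * h5

end IN19
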