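import Pool.Agent.LibIN19.S
import Pool.Agent.LibIN19.Poly

/-!
# MP_225c33_nt, assertion (c): the section as power series
-/

set_option autoImplicit false

namespace IN19

open PowerSeries Finset

theorem th_natCast (n : ℕ) : th ((n : ℕ) : ℤ⟦X⟧) = 0 := by
  unfold th
  rw [Derivation.map_natCast, mul_zero]

theorem th_ofNat (n : ℕ) [n.AtLeastTwo] : th (ofNat(n) : ℤ⟦X⟧) = 0 := by
  rw [← Nat.cast_ofNat]
  exact th_natCast _

theorem th_neg (f : ℤ⟦X⟧) : th (-f) = -th f := by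
  unfold th
  rw [map_neg, mul_neg]

theorem th_pl : th (pl (X : ℤ⟦X⟧)) = dpl X := by
  simp only [pl, dpl, th_add, th_mul, th_one, th_X, th_ofNat]
  ring

theorem th_pM : th (pM (X : ℤ⟦X⟧)) = dpM X := by
  simp only [pM, dpM, th_add, th_mul, th_one, th_X, th_ofNat, th_pow]
  push_cast
  ring

theorem th_pN : th (pN (X : ℤ⟦X⟧)) = dpN X := by
  simp only [pN, dpN, th_add, th_mul, th_one, th_X, th_ofNat, th_pow, th_neg]
  push_cast
  ring

theorem th_pn : th (pn (X : ℤ⟦X⟧)) = dpn X := by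
  simp only [pn, dpn, th_add, th_mul, th_one, th_X, th_ofNat, th_pow, th_neg]
  push_cast
  ring

theorem th_ph : th (ph (X : ℤ⟦X⟧)) = dph X := by
  simp only [ph, dph, th_add, th_mul, th_one, th_X, th_ofNat, th_pow, th_neg]
  push_cast
  ring

theorem unit_pl : IsUnit (pl (X : ℤ⟦X⟧)) := by
  rw [PowerSeries.isUnit_iff_constantCoeff]
  simp [pl]

theorem unit_pM : IsUnit (pM (X : ℤ⟦X⟧)) := by
  rw [PowerSeries.isUnit_iff_constantCoeff]
  simp [pM]

theorem unit_pN : IsUnit (pN (X : ℤ⟦X⟧)) := by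
  rw [PowerSeries.isUnit_iff_constantCoeff]
  simp [pN]

/-- **the section** -/
theorem sec : ∃ ξ c h : ℤ⟦X⟧, (X : ℤ⟦X⟧) ∣ ξ ∧ IsUnit c ∧
    pl X * (4 * ξ ^ 3 + (ξ + X) ^ 2) = -4 * X ^ 3 * c ^ 2 ∧
    pl X * (-12 * ξ ^ 2 - 3 * ξ - X + 36 * X * ξ + 2 * (1 - 27 * X) * th ξ) =
      6 * X ^ 2 * c * (2 * h + 615) ∧
    pl X ^ 2 * (4 * X * ξ - 2 * (3 * X + ξ) * th ξ) =
      2 * X ^ 2 * c * (2 * pl X * th h + h + 53 * pl X) := by
  obtain ⟨L', hL⟩ := unit_pl.exists_right_inv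
  obtain ⟨M', hM⟩ := unit_pM.exists_right_inv
  have hLu := unit_pl
  have hMu := unit_pM
  have hNu := unit_pN
  set L := pl (X : ℤ⟦X⟧) with hLdef
  set M := pM (X : ℤ⟦X⟧) with hMdef
  set N := pN (X : ℤ⟦X⟧) with hNdef
  have hL' : IsUnit L' := IsUnit.of_mul_eq_one L (by rw [mul_comm]; exact hL)
  have hM' : IsUnit M' := IsUnit.of_mul_eq_one M (by rw [mul_comm]; exact hM)
  have hL0 : L ≠ 0 := hLu.ne_zero
  have hM0 : M ≠ 0 := hMu.ne_zero
  -- the three series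
  obtain ⟨ξ, hξ⟩ : ∃ ξ : ℤ⟦X⟧, ξ = pn X * L' * M' ^ 2 := ⟨_, rfl⟩
  obtain ⟨c, hc⟩ : ∃ c : ℤ⟦X⟧, c = N * L' * M' ^ 3 := ⟨_, rfl⟩
  obtain ⟨h, hh⟩ : ∃ h : ℤ⟦X⟧, h = ph X * M' := ⟨_, rfl⟩
  have e1 : L * M ^ 2 * ξ = pn X := by
    rw [hξ]
    linear_combination (pn X * M ^ 2 * M' ^ 2) * hL + (pn X * (M * M' + 1)) * hM
  have e2 : L * M ^ 3 * c = N := by
    rw [hc]
    linear_combination (N * M ^ 3 * M' ^ 3) * hL + (N * ((M * M') ^ 2 + M * M' + 1)) * hM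
  have e3 : M * h = ph X := by
    rw [hh]
    linear_combination (ph X) * hM
  -- derivatives
  have d1 : dpl X * M ^ 2 * ξ + 2 * L * M * dpM X * ξ + L * M ^ 2 * th ξ = dpn X := by
    have := congrArg th e1
    rw [th_mul, th_mul, th_pow, th_pn, hLdef, hMdef, th_pl, th_pM] at this
    rw [← this, hLdef, hMdef]
    push_cast
    ring
  have d3 : dpM X * h + M * th h = dph X := by
    have := congrArg th e3
    rw [th_mul, th_ph, hMdef, th_pM] at this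
    rw [← this, hMdef]
  have i1 := id1 (X : ℤ⟦X⟧)
  have i2 := id2 (X : ℤ⟦X⟧)
  have i3 := id3 (X : ℤ⟦X⟧)
  rw [← hLdef, ← hMdef, ← hNdef, ← e1, ← e2] at i1
  rw [← hLdef, ← hMdef, ← hNdef, ← e1, ← e2, ← e3, ← d1] at i2
  rw [← hLdef, ← hMdef, ← hNdef, ← e1, ← e2, ← e3, ← d1, ← d3] at i3
  refine ⟨ξ, c, h, ?_, ?_, ?_, ?_, ?_⟩
  · rw [hξ]
    refine Dvd.dvd.mul_right (Dvd.dvd.mul_right ?_ _) _
    refine ⟨(-1) + (-86034) * X + (-4038725633) * X ^ 2 + (5491851689984) * X ^ 3 +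
      (-1709842899425820672) * X ^ 4 + (6701088349519190425600) * X ^ 5 +
      (-31769304496867659546099712) * X ^ 6 + (22620265797639225405295558656) * X ^ 7 +
      (-13248976144762384165062246924288) * X ^ 8 +
      (1053845666558241552873806735867904) * X ^ 9 +
      (-42105093914743153835050590510514176) * X ^ 10, ?_⟩
    unfold pn
    ring
  · rw [hc]
    exact (hNu.mul hL').mul (hM'.pow 3)
  · refine mul_left_cancel₀ (mul_ne_zero (pow_ne_zero 2 hL0) (pow_ne_zero 6 hM0)) ?_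
    linear_combination i1
  · refine mul_left_cancel₀ (mul_ne_zero hL0 (pow_ne_zero 4 hM0)) ?_
    linear_combination i2
  · refine mul_left_cancel₀ (mul_ne_zero hL0 (pow_ne_zero 5 hM0)) ?_
    linear_combination i3

end IN19
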