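import Pool.Agent.LibIN19.D3

/-!
# MP_225c33_nt, assertion (c): divisibility by powers of three and the conclusion
-/

set_option autoImplicit false

namespace IN19

open Finset

/-- the term of the sum -/
def tm (k j : ℕ) : ℤ := (-110592 : ℤ) ^ (k - j) * (615 * (j : ℤ) + 53) *
  ((((2 * j).choose j : ℕ) : ℤ) ^ 2 * (((3 * j).choose j : ℕ) : ℤ))

theorem U_tm (k : ℕ) : U (k + 1) = ∑ j ∈ range k, tm k j + tm k k := by
  unfold U
  rw [show k + 1 - 1 = k by omega, sum_range_succ]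
  rfl

theorem tm_dvd (j i : ℕ) : (3 : ℤ) ^ (3 * i + (sd j + g3 j)) ∣ tm (j + i) j := by
  unfold tm
  rw [show j + i - j = i by omega]
  have h1 : (3 : ℤ) ^ (3 * i) ∣ (-110592) ^ i := by
    rw [pow_mul]
    exact pow_dvd_pow_of_dvd (by norm_num) _
  have h2 : (3 : ℤ) ^ g3 j ∣ (((2 * j).choose j : ℕ) : ℤ) := by
    exact_mod_cast pow_padicValNat_dvd (p := 3) (n := (2 * j).choose j)
  have h3 : (3 : ℤ) ^ padicValNat 3 ((3 * j).choose j) ∣ (((3 * j).choose j : ℕ) : ℤ) := by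
    exact_mod_cast pow_padicValNat_dvd (p := 3) (n := (3 * j).choose j)
  have h4 := v3_c j
  have h5 : (3 : ℤ) ^ (3 * i + (sd j + g3 j)) = 3 ^ (3 * i) *
      ((3 ^ g3 j) ^ 2 * 3 ^ padicValNat 3 ((3 * j).choose j)) := by
    rw [← h4]
    ring
  rw [h5]
  exact mul_dvd_mul (Dvd.dvd.mul_right h1 _) (mul_dvd_mul (pow_dvd_pow_of_dvd h2 2) h3)

theorem sum_dvd (k : ℕ) : (3 : ℤ) ^ padicValNat 3 ((k + 1) * (2 * (k + 1) + 1) *
    (2 * (k + 1)).choose (k + 1)) ∣ ∑ j ∈ range k, tm k j := by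
  refine Finset.dvd_sum fun j hj => ?_
  rw [mem_range] at hj
  obtain ⟨i, rfl⟩ : ∃ i, k = j + i := ⟨k - j, by omega⟩
  refine (pow_dvd_pow _ ?_).trans (tm_dvd j i)
  rw [v3_den]
  have h1 := v3_up (j + i)
  have h2 := sd_steps j i
  omega

theorem d3_gen (k : ℕ) (hk : ∀ l, 2 * (k + 1) + 1 ≠ 3 ^ l) :
    (3 : ℤ) ^ padicValNat 3 ((k + 1) * (2 * (k + 1) + 1) *
    (2 * (k + 1)).choose (k + 1)) ∣ U (k + 1) := by
  rw [U_tm]
  refine dvd_add (sum_dvd k) ?_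
  have h := tm_dvd k 0
  rw [add_zero] at h
  refine (pow_dvd_pow _ ?_).trans h
  rw [v3_den]
  have := v3_gen k (fun l => by
    have := hk l
    intro h
    exact this (by omega))
  omega

theorem d3_exc (k l : ℕ) (hk : 2 * (k + 1) + 1 = 3 ^ l) :
    (3 : ℤ) ^ padicValNat 3 ((k + 1) * (2 * (k + 1) + 1) *
    (2 * (k + 1)).choose (k + 1)) ∣ 3 * U (k + 1) ∧
    ¬ (3 : ℤ) ^ padicValNat 3 ((k + 1) * (2 * (k + 1) + 1) *
    (2 * (k + 1)).choose (k + 1)) ∣ U (k + 1) := by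
  have hs := sum_dvd k
  have he := v3_exc k l (by omega)
  have hd := v3_den k
  have h := tm_dvd k 0
  rw [add_zero] at h
  constructor
  · rw [U_tm, show (3 : ℤ) * (∑ j ∈ range k, tm k j + tm k k) =
      3 * ∑ j ∈ range k, tm k j + 3 * tm k k by ring]
    refine dvd_add (Dvd.dvd.mul_left hs _) ?_
    rw [show padicValNat 3 ((k + 1) * (2 * (k + 1) + 1) * (2 * (k + 1)).choose (k + 1)) =
      (3 * 0 + (sd k + g3 k)) + 1 by omega, pow_succ, mul_comm _ (3 : ℤ)]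
    exact mul_dvd_mul_left _ h
  · rw [U_tm]
    intro h1
    have h2 := (dvd_add_right hs).mp h1
    have h3 : tm k k = (((615 * k + 53) * (((2 * k).choose k) ^ 2 * (3 * k).choose k) : ℕ) : ℤ) := by
      unfold tm
      rw [Nat.sub_self, pow_zero]
      push_cast
      ring
    rw [h3] at h2
    have h4 : 3 ^ padicValNat 3 ((k + 1) * (2 * (k + 1) + 1) * (2 * (k + 1)).choose (k + 1)) ∣
        (615 * k + 53) * (((2 * k).choose k) ^ 2 * (3 * k).choose k) := by exact_mod_cast h2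
    have hc1 : (2 * k).choose k ≠ 0 := (Nat.choose_pos (by omega)).ne'
    have hc2 : (3 * k).choose k ≠ 0 := (Nat.choose_pos (by omega)).ne'
    have h5 : padicValNat 3 ((615 * k + 53) * (((2 * k).choose k) ^ 2 * (3 * k).choose k)) =
        sd k + g3 k := by
      rw [padicValNat.mul (by omega) (mul_ne_zero (pow_ne_zero _ hc1) hc2),
        padicValNat.mul (pow_ne_zero _ hc1) hc2, padicValNat.pow,
        padicValNat.eq_zero_of_not_dvd (show ¬ 3 ∣ 615 * k + 53 by omega)]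
      have := v3_c k
      unfold g3 at *
      omega
    have h6 := (padicValNat_dvd_iff_le (p := 3) (mul_ne_zero (by omega)
      (mul_ne_zero (pow_ne_zero _ hc1) hc2))).mp h4
    omega

theorem dvd_of (D : ℕ) (hD : D ≠ 0) (W : ℤ) (h0 : (D : ℤ) ∣ 110592 * W)
    (h2 : (2 : ℤ) ^ padicValNat 2 D ∣ W) (h3 : (3 : ℤ) ^ padicValNat 3 D ∣ W) : (D : ℤ) ∣ W := by
  have g0 : D ∣ 110592 * W.natAbs := by
    have := Int.natAbs_dvd_natAbs.mpr h0
    rwa [Int.natAbs_mul, Int.natAbs_natCast] at this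
  have g2 : 2 ^ padicValNat 2 D ∣ W.natAbs := by
    have := Int.natAbs_dvd_natAbs.mpr h2
    rwa [Int.natAbs_pow] at this
  have g3 : 3 ^ padicValNat 3 D ∣ W.natAbs := by
    have := Int.natAbs_dvd_natAbs.mpr h3
    rwa [Int.natAbs_pow] at this
  rw [← Int.natAbs_dvd_natAbs, Int.natAbs_natCast, Nat.dvd_iff_prime_pow_dvd_dvd]
  intro p k hp hk
  by_cases p2 : p = 2
  · subst p2
    exact (pow_dvd_pow _ ((padicValNat_dvd_iff_le hD).mp hk)).trans g2
  by_cases p3 : p = 3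
  · subst p3
    exact (pow_dvd_pow _ ((padicValNat_dvd_iff_le hD).mp hk)).trans g3
  have hc : Nat.Coprime (p ^ k) 110592 := by
    apply Nat.Coprime.pow_left
    have e : (110592 : ℕ) = 2 ^ 12 * 3 ^ 3 := by norm_num
    rw [e]
    refine Nat.Coprime.mul_right (Nat.Coprime.pow_right _ ?_) (Nat.Coprime.pow_right _ ?_)
    · exact (Nat.coprime_primes hp Nat.prime_two).mpr p2
    · exact (Nat.coprime_primes hp Nat.prime_three).mpr p3
  exact hc.dvd_of_dvd_mul_left (hk.trans g0)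

theorem fin_gen (n : ℕ) (hn : 2 ≤ n) (h : ∀ l, 2 * n + 1 ≠ 3 ^ l) :
    ∃ z : ℤ, U n = (n : ℤ) * (2 * (n : ℤ) + 1) * (((2 * n).choose n : ℕ) : ℤ) * z := by
  obtain ⟨k, rfl⟩ : ∃ k, n = k + 1 := ⟨n - 1, by omega⟩
  have h0 := dvdM (k + 1)
  have h2 := d2 k (by omega)
  have h3 := d3_gen k h
  have hD : (k + 1) * (2 * (k + 1) + 1) * (2 * (k + 1)).choose (k + 1) ≠ 0 :=
    mul_ne_zero (by positivity) (Nat.choose_pos (by omega)).ne'
  obtain ⟨z, hz⟩ := dvd_of _ hD (U (k + 1)) (by push_cast at h0 ⊢; exact h0) h2 h3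
  exact ⟨z, by rw [hz]; push_cast; ring⟩

theorem fin_exc (n l : ℕ) (hn : 2 ≤ n) (h : 2 * n + 1 = 3 ^ l) :
    ∃ z : ℤ, 3 * U n = (n : ℤ) * (2 * (n : ℤ) + 1) * (((2 * n).choose n : ℕ) : ℤ) * z ∧
      ¬ (3 : ℤ) ∣ z := by
  obtain ⟨k, rfl⟩ : ∃ k, n = k + 1 := ⟨n - 1, by omega⟩
  have h0 := dvdM (k + 1)
  have h2 := d2 k (by omega)
  obtain ⟨h3, h4⟩ := d3_exc k l h
  have hD : (k + 1) * (2 * (k + 1) + 1) * (2 * (k + 1)).choose (k + 1) ≠ 0 :=
    mul_ne_zero (by positivity) (Nat.choose_pos (by omega)).ne'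
  obtain ⟨z, hz⟩ := dvd_of _ hD (3 * U (k + 1)) (by
    push_cast at h0 ⊢
    obtain ⟨w, hw⟩ := h0
    exact ⟨3 * w, by linear_combination 3 * hw⟩) (Dvd.dvd.mul_left h2 _) h3
  refine ⟨z, by rw [hz]; push_cast; ring, ?_⟩
  rintro ⟨w, rfl⟩
  have h5 : U (k + 1) = (((k + 1) * (2 * (k + 1) + 1) *
      (2 * (k + 1)).choose (k + 1) : ℕ) : ℤ) * w := by linarith
  refine h4 (Dvd.dvd.trans ?_ ⟨w, h5⟩)
  exact_mod_cast pow_padicValNat_dvd (p := 3) (n := (k + 1) * (2 * (k + 1) + 1) *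
      (2 * (k + 1)).choose (k + 1))

end IN19
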