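import Pool.Agent.LibIN19.Defs

/-!
# Contiguity relations of the residue series
-/

set_option autoImplicit false

namespace IN19

open PowerSeries

/-- `K * C(2K, K) = 2 (2K - 1) C(2K - 2, K - 1)`, with `K = k + 1` -/
theorem central (k : ℕ) : ((k : ℤ) + 1) * (((2 * (k + 1)).choose (k + 1) : ℕ) : ℤ) =
    2 * (2 * ((k : ℤ) + 1) - 1) * (((2 * k).choose k : ℕ) : ℤ) := by
  have h := Nat.succ_mul_centralBinom_succ k
  unfold Nat.centralBinom at h
  have h2 : (((k + 1) * (2 * (k + 1)).choose (k + 1) : ℕ) : ℤ) =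
      ((2 * (2 * k + 1) * (2 * k).choose k : ℕ) : ℤ) := by
    exact_mod_cast h
  push_cast at h2
  linarith

/-- the binomials of a row; `c = C(2K - 2 + i, i)`, `e = C(2K - 2 + i, i - 1)`, `K = k + 1` -/
theorem rows (k i : ℕ) : ∃ c e C0 C1 C2 : ℤ,
    c = (((2 * k + i).choose i : ℕ) : ℤ) ∧ C2 = (((2 * (k + 1) + i).choose i : ℕ) : ℤ) ∧
    (1 ≤ i → C1 = (((2 * (k + 1) + (i - 1)).choose (i - 1) : ℕ) : ℤ)) ∧ (i = 0 → C1 = 0) ∧
    (2 ≤ i → C0 = (((2 * (k + 1) + (i - 2)).choose (i - 2) : ℕ) : ℤ)) ∧ (i < 2 → C0 = 0) ∧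
    C1 = C0 + e ∧ C2 = C1 + e + c ∧ (2 * ((k : ℤ) + 1) - 1) * e = i * c := by
  match i with
  | 0 =>
    refine ⟨1, 0, 0, 0, 1, by simp, by simp, by simp, by simp, by simp, by simp, by ring, by ring,
      by simp⟩
  | 1 =>
    refine ⟨2 * k + 1, 1, 0, 1, 2 * (k + 1) + 1, by simp, by simp, by simp, by simp, by simp,
      by simp, by ring, by ring, by push_cast; ring⟩
  | i + 2 =>
    refine ⟨(((2 * k + (i + 2)).choose (i + 2) : ℕ) : ℤ), (((2 * k + (i + 2)).choose (i + 1) : ℕ) : ℤ),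
      (((2 * k + (i + 2)).choose i : ℕ) : ℤ), (((2 * k + (i + 3)).choose (i + 1) : ℕ) : ℤ),
      (((2 * k + (i + 4)).choose (i + 2) : ℕ) : ℤ), rfl, ?_, ?_, by omega, ?_, by omega, ?_, ?_, ?_⟩
    · rw [show 2 * (k + 1) + (i + 2) = 2 * k + (i + 4) by ring]
    · intro _
      rw [show 2 * (k + 1) + (i + 2 - 1) = 2 * k + (i + 3) by omega, show i + 2 - 1 = i + 1 by omega]
    · intro _
      rw [show 2 * (k + 1) + (i + 2 - 2) = 2 * k + (i + 2) by omega, show i + 2 - 2 = i by omega]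
    · rw [show 2 * k + (i + 3) = (2 * k + (i + 2)) + 1 by ring, Nat.choose_succ_succ]
      push_cast
      ring
    · rw [show 2 * k + (i + 4) = (2 * k + (i + 3)) + 1 by ring, Nat.choose_succ_succ,
        show 2 * k + (i + 3) = (2 * k + (i + 2)) + 1 by ring,
        Nat.choose_succ_succ (2 * k + (i + 2)) (i + 1)]
      push_cast
      ring
    · have h := Nat.choose_succ_right_eq (2 * k + (i + 2)) (i + 1)
      rw [show 2 * k + (i + 2) - (i + 1) = 2 * k + 1 by omega] at h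
      have h2 : (((2 * k + (i + 2)).choose (i + 2) : ℕ) : ℤ) * ((i : ℤ) + 2) =
          (((2 * k + (i + 2)).choose (i + 1) : ℕ) : ℤ) * (2 * k + 1) := by
        have h3 : (((2 * k + (i + 2)).choose (i + 1 + 1) * (i + 1 + 1) : ℕ) : ℤ) =
            (((2 * k + (i + 2)).choose (i + 1) * (2 * k + 1) : ℕ) : ℤ) := by
          exact_mod_cast h
        push_cast at h3
        linarith
      push_cast
      linarith

theorem alg1 {A B c e n i K : ℤ} (hK : 0 < K) (h1 : K * B = 2 * (2 * K - 1) * A)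
    (h2 : (2 * K - 1) * e = i * c) (h3 : K = n + i) :
    (4 * n - 2) * A * c = B * (n * c - e) := by
  have hz : K * (2 * K - 1) ≠ 0 := mul_ne_zero hK.ne' (by omega)
  apply mul_left_cancel₀ hz
  subst h3
  linear_combination (-(2 * (n + i) - 1) * (n * c - e)) * h1 +
    (2 * (2 * (n + i) - 1) * A) * h2

theorem alg2 {A B c e i K : ℤ} (hK : 0 < K) (h1 : K * B = 2 * (2 * K - 1) * A)
    (h2 : (2 * K - 1) * e = i * c) : 4 * i * A * c = B * (i * c + e) := by
  have hz : K * (2 * K - 1) ≠ 0 := mul_ne_zero hK.ne' (by omega)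
  apply mul_left_cancel₀ hz
  linear_combination (-(2 * K - 1) * (i * c + e)) * h1 - (2 * (2 * K - 1) * A) * h2

theorem vc_eq (n i k : ℕ) (h : i + n = k + 2) :
    vc n i = (-1) ^ n * (((2 * k).choose k : ℕ) : ℤ) * (((2 * k + i).choose i : ℕ) : ℤ) := by
  unfold vc
  rw [if_pos (by omega), show i + n - 2 = k by omega]

theorem vc_zero (n i : ℕ) (h : i + n < 2) : vc n i = 0 := by
  unfold vc
  rw [if_neg (by omega)]

/-- coefficient of `X * f` -/
theorem coeff_X_mul' (f : ℤ⟦X⟧) (i : ℕ) :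
    coeff i (X * f) = if i = 0 then 0 else coeff (i - 1) f := by
  cases i with
  | zero => simp
  | succ i => simp [PowerSeries.coeff_succ_X_mul]

theorem coeff_X2_mul' (f : ℤ⟦X⟧) (i : ℕ) :
    coeff i (X ^ 2 * f) = if i < 2 then 0 else coeff (i - 2) f := by
  rw [pow_two, mul_assoc, coeff_X_mul', coeff_X_mul']
  rcases i with _ | _ | i
  · simp
  · simp
  · simp

theorem I1 (n : ℕ) : (4 * (n : ℤ⟦X⟧) - 2) * v (n + 1) + (n : ℤ⟦X⟧) * v (n + 2) +
    (2 * (n : ℤ⟦X⟧) + 1) * (X * v (n + 3)) + ((n : ℤ⟦X⟧) + 1) * (X ^ 2 * v (n + 4)) = 0 := by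
  have e1 : (4 * (n : ℤ⟦X⟧) - 2) = C (4 * (n : ℤ) - 2) := by simp
  have e2 : (n : ℤ⟦X⟧) = C (n : ℤ) := by simp
  have e3 : (2 * (n : ℤ⟦X⟧) + 1) = C (2 * (n : ℤ) + 1) := by simp
  have e4 : ((n : ℤ⟦X⟧) + 1) = C ((n : ℤ) + 1) := by simp
  rw [e1, e3, e4, e2]
  ext i
  simp only [LinearMap.map_add, PowerSeries.coeff_C_mul, coeff_X_mul', coeff_X2_mul', map_zero]
  unfold v
  simp only [PowerSeries.coeff_mk]
  rcases Nat.eq_zero_or_pos (i + n) with h0 | h0
  · have hi : i = 0 := by omega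
    have hn : n = 0 := by omega
    subst hi hn
    simp [vc]
  · obtain ⟨k, hk⟩ : ∃ k, i + n = k + 1 := ⟨i + n - 1, by omega⟩
    obtain ⟨c, e, C0, C1, C2, hc, hC2, hC1, hC1', hC0, hC0', h1, h2, h3⟩ := rows k i
    have a1 : vc (n + 1) i = (-1) ^ (n + 1) * (((2 * k).choose k : ℕ) : ℤ) * c := by
      rw [vc_eq (n + 1) i k (by omega), hc]
    have a2 : vc (n + 2) i = (-1) ^ (n + 2) * (((2 * (k + 1)).choose (k + 1) : ℕ) : ℤ) * C2 := by
      rw [vc_eq (n + 2) i (k + 1) (by omega), hC2]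
    have a3 : (if i = 0 then 0 else vc (n + 3) (i - 1)) =
        (-1) ^ (n + 3) * (((2 * (k + 1)).choose (k + 1) : ℕ) : ℤ) * C1 := by
      by_cases hi : i = 0
      · rw [if_pos hi, hC1' hi, mul_zero]
      · rw [if_neg hi, vc_eq (n + 3) (i - 1) (k + 1) (by omega), hC1 (by omega)]
    have a4 : (if i < 2 then 0 else vc (n + 4) (i - 2)) =
        (-1) ^ (n + 4) * (((2 * (k + 1)).choose (k + 1) : ℕ) : ℤ) * C0 := by
      by_cases hi : i < 2
      · rw [if_pos hi, hC0' hi, mul_zero]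
      · rw [if_neg hi, vc_eq (n + 4) (i - 2) (k + 1) (by omega), hC0 (by omega)]
    rw [a1, a2, a3, a4]
    have hcen := central k
    have key := alg1 (K := (k : ℤ) + 1) (n := n) (i := i) (by positivity) hcen h3
      (by exact_mod_cast (by omega : k + 1 = n + i))
    have h4 : (n : ℤ) * C2 - (2 * n + 1) * C1 + (n + 1) * C0 = n * c - e := by
      rw [h2, h1]; ring
    have h5 : (-1 : ℤ) ^ (n + 1) = -(-1) ^ n := by rw [pow_succ]; ring
    have h6 : (-1 : ℤ) ^ (n + 2) = (-1) ^ n := by rw [pow_add]; norm_num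
    have h7 : (-1 : ℤ) ^ (n + 3) = -(-1) ^ n := by rw [pow_add]; norm_num
    have h8 : (-1 : ℤ) ^ (n + 4) = (-1) ^ n := by rw [pow_add]; norm_num
    rw [h5, h6, h7, h8]
    linear_combination (-(-1 : ℤ) ^ n) * key +
      ((-1 : ℤ) ^ n * (((2 * (k + 1)).choose (k + 1) : ℕ) : ℤ)) * h4

theorem I2 (n : ℕ) : 4 * th (v n) + th (v (n + 1)) + 2 * (X * th (v (n + 2))) +
    X ^ 2 * th (v (n + 3)) + X * v (n + 2) + X ^ 2 * v (n + 3) = 0 := by
  have e1 : (4 : ℤ⟦X⟧) = C (4 : ℤ) := by simp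
  have e2 : (2 : ℤ⟦X⟧) = C (2 : ℤ) := by simp
  rw [e1, e2]
  ext i
  simp only [LinearMap.map_add, PowerSeries.coeff_C_mul, coeff_X_mul', coeff_X2_mul', map_zero, coeff_th]
  unfold v
  simp only [PowerSeries.coeff_mk]
  rcases Nat.lt_or_ge (i + n) 2 with h0 | h0
  · rcases Nat.eq_zero_or_pos i with hi | hi
    · subst hi
      simp
    · have hi1 : i = 1 := by omega
      have hn : n = 0 := by omega
      subst hi1 hn
      simp [vc]
  · obtain ⟨k, hk⟩ : ∃ k, i + n = k + 2 := ⟨i + n - 2, by omega⟩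
    obtain ⟨c, e, C0, C1, C2, hc, hC2, hC1, hC1', hC0, hC0', h1, h2, h3⟩ := rows k i
    have a1 : vc n i = (-1) ^ n * (((2 * k).choose k : ℕ) : ℤ) * c := by
      rw [vc_eq n i k (by omega), hc]
    have a2 : vc (n + 1) i = (-1) ^ (n + 1) * (((2 * (k + 1)).choose (k + 1) : ℕ) : ℤ) * C2 := by
      rw [vc_eq (n + 1) i (k + 1) (by omega), hC2]
    have a3 : (if i = 0 then 0 else vc (n + 2) (i - 1)) =
        (-1) ^ (n + 2) * (((2 * (k + 1)).choose (k + 1) : ℕ) : ℤ) * C1 := by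
      by_cases hi : i = 0
      · rw [if_pos hi, hC1' hi, mul_zero]
      · rw [if_neg hi, vc_eq (n + 2) (i - 1) (k + 1) (by omega), hC1 (by omega)]
    have a3' : (if i = 0 then 0 else ((i - 1 : ℕ) : ℤ) * vc (n + 2) (i - 1)) =
        ((i : ℤ) - 1) * ((-1) ^ (n + 2) * (((2 * (k + 1)).choose (k + 1) : ℕ) : ℤ) * C1) := by
      by_cases hi : i = 0
      · rw [if_pos hi, hC1' hi, mul_zero, mul_zero]
      · rw [← a3, if_neg hi, if_neg hi]
        push_cast [Nat.one_le_iff_ne_zero.2 hi]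
        ring
    have a4 : (if i < 2 then 0 else vc (n + 3) (i - 2)) =
        (-1) ^ (n + 3) * (((2 * (k + 1)).choose (k + 1) : ℕ) : ℤ) * C0 := by
      by_cases hi : i < 2
      · rw [if_pos hi, hC0' hi, mul_zero]
      · rw [if_neg hi, vc_eq (n + 3) (i - 2) (k + 1) (by omega), hC0 (by omega)]
    have a4' : (if i < 2 then 0 else ((i - 2 : ℕ) : ℤ) * vc (n + 3) (i - 2)) =
        ((i : ℤ) - 2) * ((-1) ^ (n + 3) * (((2 * (k + 1)).choose (k + 1) : ℕ) : ℤ) * C0) := by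
      by_cases hi : i < 2
      · rw [if_pos hi, hC0' hi, mul_zero, mul_zero]
      · rw [← a4, if_neg hi, if_neg hi]
        push_cast [not_lt.1 hi]
        ring
    rw [a1, a2, a3, a3', a4, a4']
    have hcen := central k
    have key := alg2 (K := (k : ℤ) + 1) (i := i) (by positivity) hcen h3
    have h4 : -(i : ℤ) * C2 + (2 * i - 1) * C1 - (i - 1) * C0 = -(i * c) - e := by
      rw [h2, h1]; ring
    have h5 : (-1 : ℤ) ^ (n + 1) = -(-1) ^ n := by rw [pow_succ]; ring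
    have h6 : (-1 : ℤ) ^ (n + 2) = (-1) ^ n := by rw [pow_add]; norm_num
    have h7 : (-1 : ℤ) ^ (n + 3) = -(-1) ^ n := by rw [pow_add]; norm_num
    rw [h5, h6, h7]
    linear_combination ((-1 : ℤ) ^ n) * key +
      ((-1 : ℤ) ^ n * (((2 * (k + 1)).choose (k + 1) : ℕ) : ℤ)) * h4

end IN19
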