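import Pool.Agent.LibIN19.W

/-!
# The first three residue series
-/

set_option autoImplicit false

namespace IN19

open PowerSeries

theorem vc1 (i : ℕ) : vc 1 (i + 1) =
    -((((2 * i).choose i : ℕ) : ℤ) * (((3 * i + 1).choose (i + 1) : ℕ) : ℤ)) := by
  rw [vc_eq 1 (i + 1) i (by ring), show 2 * i + (i + 1) = 3 * i + 1 by ring]
  ring

theorem vc2 (i : ℕ) : vc 2 i = (((2 * i).choose i : ℕ) : ℤ) * (((3 * i).choose i : ℕ) : ℤ) := by
  rw [vc_eq 2 i i (by ring), show 2 * i + i = 3 * i by ring]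
  ring

theorem vc0 (i : ℕ) : vc 0 (i + 2) =
    (((2 * i).choose i : ℕ) : ℤ) * (((3 * i + 2).choose (i + 2) : ℕ) : ℤ) := by
  rw [vc_eq 0 (i + 2) i (by ring), show 2 * i + (i + 2) = 3 * i + 2 by ring]
  ring

theorem ch1 (i : ℕ) : ((i : ℤ) + 1) * (((3 * i + 1).choose (i + 1) : ℕ) : ℤ) =
    (3 * i + 1) * (((3 * i).choose i : ℕ) : ℤ) := by
  have h := Nat.add_one_mul_choose_eq (3 * i) i
  have h2 : (((3 * i + 1) * (3 * i).choose i : ℕ) : ℤ) =
      (((3 * i + 1).choose (i + 1) * (i + 1) : ℕ) : ℤ) := by exact_mod_cast h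
  push_cast at h2
  linarith

theorem ch2 (i : ℕ) : (((3 * i + 2).choose (i + 1) : ℕ) : ℤ) = 2 * (((3 * i + 2).choose i : ℕ) : ℤ) ∧
    ((i : ℤ) + 2) * (((3 * i + 2).choose (i + 2) : ℕ) : ℤ) =
      (2 * i + 1) * (((3 * i + 2).choose (i + 1) : ℕ) : ℤ) := by
  have h := Nat.choose_succ_right_eq (3 * i + 2) i
  have h' := Nat.choose_succ_right_eq (3 * i + 2) (i + 1)
  rw [show 3 * i + 2 - i = 2 * i + 2 by omega] at h
  rw [show 3 * i + 2 - (i + 1) = 2 * i + 1 by omega] at h'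
  have h2 : (((3 * i + 2).choose (i + 1) * (i + 1) : ℕ) : ℤ) =
      (((3 * i + 2).choose i * (2 * i + 2) : ℕ) : ℤ) := by exact_mod_cast h
  have h2' : (((3 * i + 2).choose (i + 1 + 1) * (i + 1 + 1) : ℕ) : ℤ) =
      (((3 * i + 2).choose (i + 1) * (2 * i + 1) : ℕ) : ℤ) := by exact_mod_cast h'
  push_cast at h2 h2'
  refine ⟨?_, by linarith⟩
  have hi : ((i : ℤ) + 1) ≠ 0 := by positivity
  apply mul_left_cancel₀ hi
  linarith

/-- `C(3i+3, i+1) = 3 C(3i+2, i)` -/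
theorem ch3 (i : ℕ) : (((3 * (i + 1)).choose (i + 1) : ℕ) : ℤ) =
    3 * (((3 * i + 2).choose i : ℕ) : ℤ) := by
  have h := Nat.add_one_mul_choose_eq (3 * i + 2) i
  rw [show 3 * i + 2 + 1 = 3 * (i + 1) by ring] at h
  have h2 : (((3 * (i + 1)) * (3 * i + 2).choose i : ℕ) : ℤ) =
      (((3 * (i + 1)).choose (i + 1) * (i + 1) : ℕ) : ℤ) := by exact_mod_cast h
  push_cast at h2
  have hi : ((i : ℤ) + 1) ≠ 0 := by positivity
  apply mul_left_cancel₀ hi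
  linarith

/-- `(i+1)^2 d (i+1) = 3 (3i+1)(3i+2) d i` -/
theorem drec (i : ℕ) : ((i : ℤ) + 1) ^ 2 * vc 2 (i + 1) =
    3 * (3 * i + 1) * (3 * i + 2) * vc 2 i := by
  rw [vc2, vc2, ch3]
  have h1 := central i
  have h2 := (ch2 i).1
  -- C(3i+2, i+1) = C(3i+1, i) + C(3i+1, i+1)
  have h3 : (((3 * i + 2).choose (i + 1) : ℕ) : ℤ) =
      (((3 * i + 1).choose i : ℕ) : ℤ) + (((3 * i + 1).choose (i + 1) : ℕ) : ℤ) := by
    rw [show 3 * i + 2 = (3 * i + 1) + 1 by ring, Nat.choose_succ_succ]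
    push_cast
    ring
  have h4 := Nat.add_one_mul_choose_eq (3 * i + 1) i
  rw [show 3 * i + 1 + 1 = 3 * i + 2 by ring] at h4
  have h5 : (((3 * i + 2) * (3 * i + 1).choose i : ℕ) : ℤ) =
      (((3 * i + 2).choose (i + 1) * (i + 1) : ℕ) : ℤ) := by exact_mod_cast h4
  push_cast at h5
  have h6 := ch1 i
  -- (2i+1) * C(3i+2,i+1) = (3i+2) C(3i+1, i+1)
  have h8 : (2 * (i : ℤ) + 1) * (((3 * i + 2).choose (i + 1) : ℕ) : ℤ) =
      (3 * i + 2) * (((3 * i + 1).choose (i + 1) : ℕ) : ℤ) := by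
    have h9 : (((3 * i + 1).choose i : ℕ) : ℤ) = (((3 * i + 2).choose (i + 1) : ℕ) : ℤ) -
      (((3 * i + 1).choose (i + 1) : ℕ) : ℤ) := by linarith
    rw [h9] at h5
    linarith
  set A : ℤ := (((2 * i).choose i : ℕ) : ℤ)
  set B : ℤ := (((2 * (i + 1)).choose (i + 1) : ℕ) : ℤ)
  set P : ℤ := (((3 * i + 2).choose i : ℕ) : ℤ)
  set Q : ℤ := (((3 * i + 2).choose (i + 1) : ℕ) : ℤ)
  set S : ℤ := (((3 * i + 1).choose (i + 1) : ℕ) : ℤ)
  set T : ℤ := (((3 * i).choose i : ℕ) : ℤ)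
  -- h1 : (i+1) B = 2 (2(i+1)-1) A; h2 : Q = 2 P; h8 : (2i+1) Q = (3i+2) S; h6 : (i+1) S = (3i+1) T
  linear_combination (3 * ((i : ℤ) + 1) * P) * h1 - (3 * ((i : ℤ) + 1) * (2 * i + 1) * A) * h2 +
    (3 * ((i : ℤ) + 1) * A) * h8 + (3 * (3 * (i : ℤ) + 2) * A) * h6

theorem I3 : th (v 1) + X * v 2 + 3 * (X * th (v 2)) = 0 := by
  have e3 : (3 : ℤ⟦X⟧) = C (3 : ℤ) := by simp
  rw [e3]
  ext i
  simp only [LinearMap.map_add, PowerSeries.coeff_C_mul, coeff_X_mul', coeff_th, map_zero]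
  unfold v
  simp only [PowerSeries.coeff_mk]
  cases i with
  | zero => simp
  | succ i =>
    rw [if_neg (Nat.succ_ne_zero i), if_neg (Nat.succ_ne_zero i), Nat.succ_sub_one, vc1, vc2]
    have h := ch1 i
    push_cast
    linear_combination (-(((2 * i).choose i : ℕ) : ℤ)) * h

theorem I4 : 3 * th (v 0) = X * th (v 2) := by
  have e3 : (3 : ℤ⟦X⟧) = C (3 : ℤ) := by simp
  rw [e3]
  ext i
  simp only [PowerSeries.coeff_C_mul, coeff_X_mul', coeff_th]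
  unfold v
  simp only [PowerSeries.coeff_mk]
  rcases i with _ | _ | i
  · simp
  · simp [vc]
  · rw [if_neg (by omega), show i + 1 + 1 - 1 = i + 1 by omega, show i + 1 + 1 = i + 2 by ring,
      vc0, vc2, ch3]
    have h1 := central i
    have h2 := (ch2 i).1
    have h3 := (ch2 i).2
    push_cast
    set A : ℤ := (((2 * i).choose i : ℕ) : ℤ)
    set B : ℤ := (((2 * (i + 1)).choose (i + 1) : ℕ) : ℤ)
    linear_combination (3 * A) * h3 + (3 * A * (2 * (i : ℤ) + 1)) * h2 -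
      (3 * (((3 * i + 2).choose i : ℕ) : ℤ)) * h1

theorem I5 : 3 * v 1 = th (v 2) - 27 * (X * th (v 2)) - 9 * (X * v 2) := by
  have e3 : (3 : ℤ⟦X⟧) = C (3 : ℤ) := by simp
  have e27 : (27 : ℤ⟦X⟧) = C (27 : ℤ) := by simp
  have e9 : (9 : ℤ⟦X⟧) = C (9 : ℤ) := by simp
  rw [e3, e27, e9]
  ext i
  simp only [LinearMap.map_sub, PowerSeries.coeff_C_mul, coeff_X_mul', coeff_th]
  unfold v
  simp only [PowerSeries.coeff_mk]
  cases i with
  | zero => simp [vc]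
  | succ i =>
    rw [if_neg (Nat.succ_ne_zero i), if_neg (Nat.succ_ne_zero i), Nat.succ_sub_one, vc1]
    have h := ch1 i
    have h2 := drec i
    have h3 := vc2 i
    have hi : ((i : ℤ) + 1) ≠ 0 := by positivity
    apply mul_left_cancel₀ hi
    push_cast
    set A : ℤ := (((2 * i).choose i : ℕ) : ℤ)
    linear_combination (-3 * A) * h - h2 + (3 * (3 * (i : ℤ) + 1)) * h3

end IN19
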